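import Pool.Agent.H722S.Fin

/-!
# The squeezing function along unrestricted sequences

For every `n ≥ 2` there is a bounded convex domain in `C^n` with smooth boundary of finite type,
a boundary point `p` at which the Levi form has exactly `n - 2` positive eigenvalues (so `p` is not
strongly pseudoconvex), and a sequence of interior points which converges to `p` and along which the
squeezing function tends to `1`.
-/

set_option autoImplicit false

open Filter Topology Metric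

namespace Pool.Agent.Results.MP_63facb_an.TangentialSequence

/-- The squeezing function of a domain `D` in `C^n`: the supremum of the radii `ρ > 0` such that
some injective holomorphic map `F` from `D` into the open unit ball with `F z = 0` has an image
which contains the ball of radius `ρ` about the origin. -/
noncomputable def squeezing {n : ℕ} (D : Set (EuclideanSpace ℂ (Fin n)))
    (z : EuclideanSpace ℂ (Fin n)) : ℝ :=
  sSup {ρ : ℝ | 0 < ρ ∧ ∃ F : EuclideanSpace ℂ (Fin n) → EuclideanSpace ℂ (Fin n),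
    DifferentiableOn ℂ F D ∧ Set.InjOn F D ∧ Set.MapsTo F D (ball 0 1) ∧ F z = 0 ∧
      ball 0 ρ ⊆ F '' D}

/-- `r` is a smooth defining function of `D` on the open set `U`. -/
def SmoothDefining {n : ℕ} (D U : Set (EuclideanSpace ℂ (Fin n)))
    (r : EuclideanSpace ℂ (Fin n) → ℝ) : Prop :=
  IsOpen U ∧ ContDiff ℝ ((⊤ : ℕ∞) : WithTop ℕ∞) r ∧ (∀ z ∈ U, fderiv ℝ r z ≠ 0) ∧
    D ∩ U = {z | z ∈ U ∧ r z < 0}

/-- The real derivative of `r` at `q` in the direction `v` -/
noncomputable def der {n : ℕ} (r : EuclideanSpace ℂ (Fin n) → ℝ)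
    (q v : EuclideanSpace ℂ (Fin n)) : ℝ :=
  fderiv ℝ r q v

/-- The second real derivative of `r` at `q` in the direction `v` -/
noncomputable def der2 {n : ℕ} (r : EuclideanSpace ℂ (Fin n) → ℝ)
    (q v : EuclideanSpace ℂ (Fin n)) : ℝ :=
  der (fun x => der r x v) q v

/-- The vector `v` is a complex tangent vector of the level set of `r` through `q`. -/
def Tangent {n : ℕ} (r : EuclideanSpace ℂ (Fin n) → ℝ) (q v : EuclideanSpace ℂ (Fin n)) : Prop :=
  der r q v = 0 ∧ der r q (Complex.I • v) = 0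

/-- (four times) the Levi form of `r` at `q` in the direction `v` -/
noncomputable def levi {n : ℕ} (r : EuclideanSpace ℂ (Fin n) → ℝ)
    (q v : EuclideanSpace ℂ (Fin n)) : ℝ :=
  der2 r q v + der2 r q (Complex.I • v)

lemma levi_rr {n : ℕ} (l : Fin n) (z v : EuclideanSpace ℂ (Fin n)) :
    levi (H722S.rr l) z v =
      (∑ i ∈ Finset.univ.erase l, 4 * ‖v i‖ ^ 2) + 16 * ‖z l‖ ^ 2 * ‖v l‖ ^ 2 := by
  have h : ∀ u : EuclideanSpace ℂ (Fin n),
      der2 (H722S.rr l) z u = fderiv ℝ (fderiv ℝ (H722S.rr l)) z u u := by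
    intro u
    unfold der2 der
    rw [H722S.fderiv_rr]
    have h1 := (H722S.hasFDerivAt_dr l z).clm_apply (hasFDerivAt_const u z)
    rw [h1.fderiv, (H722S.hasFDerivAt_dr l z).fderiv]
    simp
  rw [← H722S.levi_eq, levi, h, h]

/-- Levi pseudoconvexity of the hypersurface `r = 0` in `U` -/
def LeviPseudoconvex {n : ℕ} (U : Set (EuclideanSpace ℂ (Fin n)))
    (r : EuclideanSpace ℂ (Fin n) → ℝ) : Prop :=
  ∀ q ∈ U, r q = 0 → ∀ v, Tangent r q v → 0 ≤ levi r q v

/-- Finite D'Angelo type of the hypersurface `r = 0` at all its points in `U`: there is a number `M`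
such that for every nonconstant holomorphic disc `γ` through `q` the order of vanishing of `r ∘ γ`
is at most `M` times the order of vanishing `m` of `γ - q`. -/
def FiniteType {n : ℕ} (U : Set (EuclideanSpace ℂ (Fin n)))
    (r : EuclideanSpace ℂ (Fin n) → ℝ) : Prop :=
  ∀ q ∈ U, r q = 0 → ∃ M : ℕ, ∀ γ : ℂ → EuclideanSpace ℂ (Fin n), ∀ ε : ℝ, 0 < ε →
    DifferentiableOn ℂ γ (ball 0 ε) → γ 0 = q →
    ∀ m : ℕ, 1 ≤ m → iteratedDeriv m γ 0 ≠ 0 →
      (∀ j : ℕ, 1 ≤ j → j < m → iteratedDeriv j γ 0 = 0) →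
      ∃ k : ℕ, k ≤ M * m ∧ iteratedFDeriv ℝ k (r ∘ γ) 0 ≠ 0

/-- The Levi form of `r` at `p` has at least `k` positive eigenvalues: it is positive definite on a
`k`-dimensional space of complex tangent vectors. -/
def PositiveEigenvalues {n : ℕ} (k : ℕ) (r : EuclideanSpace ℂ (Fin n) → ℝ)
    (p : EuclideanSpace ℂ (Fin n)) : Prop :=
  ∃ W : Submodule ℂ (EuclideanSpace ℂ (Fin n)), k ≤ Module.finrank ℂ W ∧
    ∀ v ∈ W, v ≠ 0 → Tangent r p v ∧ 0 < levi r p v

/-- The Levi form of `r` at `p` is positive definite on the complex tangent space. -/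
def StronglyPseudoconvexAt {n : ℕ} (r : EuclideanSpace ℂ (Fin n) → ℝ)
    (p : EuclideanSpace ℂ (Fin n)) : Prop :=
  ∀ v, v ≠ 0 → Tangent r p v → 0 < levi r p v

lemma squeezing_le_one {n : ℕ} (o : Fin n) (D : Set (EuclideanSpace ℂ (Fin n)))
    (z : EuclideanSpace ℂ (Fin n)) : ∀ ρ ∈ {ρ : ℝ | 0 < ρ ∧
      ∃ F : EuclideanSpace ℂ (Fin n) → EuclideanSpace ℂ (Fin n),
    DifferentiableOn ℂ F D ∧ Set.InjOn F D ∧ Set.MapsTo F D (ball 0 1) ∧ F z = 0 ∧
      ball 0 ρ ⊆ F '' D}, ρ ≤ 1 := by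
  rintro ρ ⟨_, F, _, _, hm, _, hb⟩
  by_contra hc
  push Not at hc
  have h1 : (EuclideanSpace.single o (1 : ℂ)) ∈ ball (0 : EuclideanSpace ℂ (Fin n)) ρ := by
    simpa using hc
  obtain ⟨y, hy, hy2⟩ := hb h1
  have h2 := hm hy
  rw [hy2] at h2
  simp at h2

/-- **Squeezing function and unrestricted approach.** -/
theorem result (n : ℕ) (hn : 2 ≤ n) :
    ∃ (D : Set (EuclideanSpace ℂ (Fin n))) (p : EuclideanSpace ℂ (Fin n))
      (U : Set (EuclideanSpace ℂ (Fin n))) (r : EuclideanSpace ℂ (Fin n) → ℝ),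
      IsOpen D ∧ IsConnected D ∧ Bornology.IsBounded D ∧ Convex ℝ D ∧ p ∈ frontier D ∧
      SmoothDefining D U r ∧ frontier D ⊆ U ∧ LeviPseudoconvex U r ∧ FiniteType U r ∧
      PositiveEigenvalues (n - 2) r p ∧ ¬ StronglyPseudoconvexAt r p ∧
      ∃ z : ℕ → EuclideanSpace ℂ (Fin n), (∀ ν, z ν ∈ D) ∧ Tendsto z atTop (𝓝 p) ∧
        Tendsto (fun ν => squeezing D (z ν)) atTop (𝓝 1) := by
  let o : Fin n := ⟨0, by omega⟩
  let l : Fin n := ⟨1, by omega⟩
  have hol : o ≠ l := by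
    intro h
    have := congrArg Fin.val h
    simp [o, l] at this
  have hpl : (H722S.pp o : EuclideanSpace ℂ (Fin n)) l = 0 := by
    simp [H722S.pp, hol.symm]
  have hTan : ∀ v : EuclideanSpace ℂ (Fin n), v o = 0 → Tangent (H722S.rr l) (H722S.pp o) v := by
    intro v hv
    refine ⟨?_, ?_⟩
    · rw [der, H722S.tangent_iff hol, hv]; simp
    · rw [der, H722S.tangent_iff hol]
      have : (Complex.I • v) o = 0 := by simp [hv]
      rw [this]; simp
  refine ⟨H722S.DD l, H722S.pp o, {0}ᶜ, H722S.rr l, H722S.DD_open l, H722S.DD_connected l,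
    H722S.DD_bounded l, H722S.DD_convex l, H722S.pp_front hol, ?_, ?_, ?_, ?_, ?_, ?_, ?_⟩
  · refine ⟨isOpen_compl_singleton, H722S.rr_smooth l, fun z hz => H722S.grad_ne hz, ?_⟩
    ext z
    constructor
    · rintro ⟨h1, h2⟩; exact ⟨h2, h1⟩
    · rintro ⟨h1, h2⟩; exact ⟨h2, h1⟩
  · intro z hz hz0
    have h1 : z = 0 := hz0
    rw [(H722S.DD_open l).frontier_eq] at hz
    exact hz.2 (by rw [h1]; exact H722S.zero_mem l)
  · intro q _ _ v _
    rw [levi_rr]
    have : 0 ≤ ∑ i ∈ Finset.univ.erase l, 4 * ‖v i‖ ^ 2 :=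
      Finset.sum_nonneg fun i _ => by positivity
    positivity
  · intro q _ hq
    exact ⟨4, fun γ ε hε hγ h0 m hm hne hlow => H722S.finite_type l hq hε hγ h0 hm hne hlow⟩
  · refine ⟨H722S.ww o l, H722S.finrank_ww o l, fun v hv hv0 => ?_⟩
    obtain ⟨hvo, hvl⟩ := H722S.mem_ww.1 hv
    refine ⟨hTan v hvo, ?_⟩
    rw [levi_rr, hpl]
    have h1 : ∑ i ∈ Finset.univ.erase l, 4 * ‖v i‖ ^ 2 = 4 * ‖v‖ ^ 2 := by
      rw [H722S.norm_sq_sum l v, hvl, ← Finset.mul_sum]
      simp
    rw [h1]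
    have h2 : 0 < ‖v‖ := norm_pos_iff.2 hv0
    simp
    positivity
  · intro h
    have h1 := h (EuclideanSpace.single l 1) (by simp) (hTan _ (by simp [hol]))
    rw [levi_rr, hpl] at h1
    have h2 : ∑ i ∈ Finset.univ.erase l,
        4 * ‖(EuclideanSpace.single l (1 : ℂ) : EuclideanSpace ℂ (Fin n)) i‖ ^ 2 = 0 := by
      refine Finset.sum_eq_zero fun i hi => ?_
      simp [Finset.ne_of_mem_erase hi]
    rw [h2] at h1
    simp at h1
  · -- the sequence
    let w : ℕ → ℝ := fun ν => 1 - 1 / ((ν : ℝ) + 2)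
    have hw0 : ∀ ν, 0 ≤ w ν ∧ w ν < 1 := by
      intro ν
      have h1 : (0 : ℝ) < (ν : ℝ) + 2 := by positivity
      refine ⟨?_, ?_⟩
      · have : 1 / ((ν : ℝ) + 2) ≤ 1 := by
          rw [div_le_one h1]; linarith [(Nat.cast_nonneg ν : (0 : ℝ) ≤ ν)]
        simp only [w]; linarith
      · have : 0 < 1 / ((ν : ℝ) + 2) := by positivity
        simp only [w]; linarith
    have hwa : ∀ ν, |w ν| < 1 := fun ν => by
      rw [abs_of_nonneg (hw0 ν).1]; exact (hw0 ν).2
    have hwt : Tendsto w atTop (𝓝 1) := by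
      have h1 : Tendsto (fun ν : ℕ => (ν : ℝ) + 2) atTop atTop :=
        tendsto_atTop_add_const_right _ _ tendsto_natCast_atTop_atTop
      have h2 := h1.inv_tendsto_atTop
      have h3 : Tendsto (fun ν : ℕ => 1 - ((ν : ℝ) + 2)⁻¹) atTop (𝓝 (1 - 0)) :=
        tendsto_const_nhds.sub h2
      simpa [w] using h3
    refine ⟨fun ν => H722S.psi o l (-(w ν)) ((w ν : ℂ) • EuclideanSpace.single l 1), ?_, ?_, ?_⟩
    · intro ν
      exact H722S.psi_maps hol (by rw [abs_neg]; exact hwa ν) (H722S.wl_mem (hwa ν))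
    · simp only [H722S.psi_pt hol]
      exact H722S.seq_tendsto w hwt
    · rw [tendsto_order]
      constructor
      · intro c hc
        obtain ⟨ρ, hρ1, hρ2⟩ := exists_between (max_lt hc one_pos)
        have hρ0 : 0 < ρ := (le_max_right c 0).trans_lt hρ1
        have hcρ : c < ρ := (le_max_left c 0).trans_lt hρ1
        have h1 : Tendsto (fun ν => 1 - w ν ^ 2) atTop (𝓝 (1 - 1 ^ 2)) :=
          tendsto_const_nhds.sub (hwt.pow 2)
        have h2 : (1 : ℝ) - 1 ^ 2 < 2 * (1 - ρ) ^ 3 := by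
          have : 0 < 1 - ρ := by linarith
          have h3 : 0 < (1 - ρ) ^ 3 := by positivity
          linarith
        filter_upwards [h1.eventually_lt_const h2] with ν hν
        refine hcρ.trans_le ?_
        refine le_csSup ⟨1, squeezing_le_one o _ _⟩ ⟨hρ0, ?_⟩
        exact H722S.embeds hol (hwa ν) (hwa ν) hρ0 hρ2 hν.le
      · intro c hc
        refine Eventually.of_forall fun ν => lt_of_le_of_lt ?_ hc
        exact Real.sSup_le (squeezing_le_one o _ _) zero_le_one

end Pool.Agent.Results.MP_63facb_an.TangentialSequence
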